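import Pool.Agent.Work.MP_02f065_gt.FR.Final

/-!
Gromov's question on closed geodesics of RP^n, n = Q, for metrics compared with a linear
orthonormal frame J_0, .., J_(m-1) of the round sphere (m = 1: Hopf fibration, n odd; m = 3 = n: the
left invariant frame). With f_i the g-length of J_i x and e a bound for the g-lengths of the unit
vectors orthogonal to the frame, the metric g has a closed geodesic of length l with
(l/pi)^n <= vol(g)/vol(round), the sharp bound, if the volume density of g lies in degree n of the
class Adm generated by the f_i and e. The first part gives explicit metrics in the class: all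
metrics with f_i^n v <= volDensity g for a function v of mean at least 1, constant on the circles of
J_i (e.g. all metrics conformal to a metric with J_i x of length 1 and with J_i-invariant volume
density of mean at least 1), all metrics which satisfy a conformally invariant integral condition,
all metrics conformal to theta^2 + w^2 (g_0 - theta^2), w Hopf invariant, and diagonal metrics with
comonotone or invariant functions.
-/

open Pool.Agent.Work.MP_02f065_gt.RPn Pool.Agent.Work.MP_02f065_gt.FR

theorem Pool.Agent.Results.MP_02f065_gt.FrameMetrics.result (Q : ℕ) (hQ : 2 ≤ Q) (m : ℕ)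
    (J : Fin m → E (Ix 1 Q) → E (Ix 1 Q)) (hJ : IsFrame J) :
    (∀ g : Pool.Agent.Work.MP_02f065_gt.RPn.Field (Ix 1 Q), IsSpecial J g →
      IsMetric g ∧ InClass J g) ∧
    ∀ g : Pool.Agent.Work.MP_02f065_gt.RPn.Field (Ix 1 Q), IsMetric g → InClass J g →
      ∃ (γ : ℝ → E (Ix 1 Q)) (l : ℝ), IsClosedGeodesic g γ l ∧
        (l / Real.pi) ^ Q ≤ vol g / vol (Pool.Agent.Work.MP_02f065_gt.RPn.round :
          Pool.Agent.Work.MP_02f065_gt.RPn.Field (Ix 1 Q)) :=
  Pool.Agent.Work.MP_02f065_gt.FR.final hQ hJ
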