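import Pool.Agent.Work.MP_02f065_gt.HS.Final

/-!
Gromov's question on closed geodesics of RP^n, n = Q odd, for metrics for which the Hopf map onto
CP^m, n = 2m+1, is a Riemannian submersion: the metrics of the fibres and the horizontal spaces are
arbitrary (no symmetry). The metric has a closed geodesic of length l with
(l/pi)^n <= vol(g)/vol(round), the sharp bound, if the geodesics of one pencil of CP^m are short in
the quotient metric (for instance if the quotient is round), or if the horizontal great circles have
closed horizontal lifts (for instance if the horizontal spaces are standard) and the energy of the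
quotient metric is not larger than that of a Kaehler metric of the same volume (for instance if the
quotient is Kaehler, or, for n = 3, if the horizontal spaces have a Pin(2)-symmetry and the quotient is
conformally round).
-/

open Pool.Agent.Work.MP_02f065_gt.RPn Pool.Agent.Work.MP_02f065_gt.HS

theorem Pool.Agent.Results.MP_02f065_gt.HopfSubmersions.result (Q : ℕ) (hQ : 2 ≤ Q)
    (J : E (Ix 1 Q) → E (Ix 1 Q)) (hJ : IsCpx J) :
    (∀ g : Pool.Agent.Work.MP_02f065_gt.RPn.Field (Ix 1 Q), IsSpecial J g → InClass g J) ∧
    ∀ g : Pool.Agent.Work.MP_02f065_gt.RPn.Field (Ix 1 Q), InClass g J →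
      ∃ (γ : ℝ → E (Ix 1 Q)) (l : ℝ), IsClosedGeodesic g γ l ∧
        (l / Real.pi) ^ Q ≤ vol g / vol (Pool.Agent.Work.MP_02f065_gt.RPn.round :
          Pool.Agent.Work.MP_02f065_gt.RPn.Field (Ix 1 Q)) :=
  Pool.Agent.Work.MP_02f065_gt.HS.final hQ hJ
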