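import Pool.Agent.Work.MP_02f065_gt.Cvx.Final

/-!
Gromov's question on closed geodesics of RP^n for the metrics of centrally symmetric hypersurfaces
H : r = r(x) of rotationally symmetric spaces dr^2 + φ(r)^2 g_0 (Euclidean, hyperbolic, spherical
space and many others), n = Q, whose second fundamental form is nonnegative in the direction of the
gradient of r and has nonnegative trace on the orthogonal complement of this direction (for
instance, H convex), and for all metrics g >= φ(r)^2 g_0 which exceed φ(r)^2 g_0 in the mean at most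
as much as the metric of H: there is a closed geodesic of length l with
(l/pi)^n <= vol(g)/vol(round), the sharp bound.
-/

open Pool.Agent.Work.MP_02f065_gt.RPn Pool.Agent.Work.MP_02f065_gt.Hyp

theorem Pool.Agent.Results.MP_02f065_gt.Hypersurfaces.result (Q : ℕ) (hQ : 2 ≤ Q) (φ : ℝ → ℝ)
    (α β : ℝ) (r : E (Ix 1 Q) → ℝ) (hr : IsGraph φ α β r) (hc : IsSplitConvex φ r) :
    (IsMetric (induced φ r) ∧ IsAdmissible φ r (induced φ r)) ∧
    ∀ g : Pool.Agent.Work.MP_02f065_gt.RPn.Field (Ix 1 Q), IsMetric g → IsAdmissible φ r g →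
      ∃ (γ : ℝ → E (Ix 1 Q)) (l : ℝ), IsClosedGeodesic g γ l ∧
        (l / Real.pi) ^ Q ≤ vol g / vol (Pool.Agent.Work.MP_02f065_gt.RPn.round :
          Pool.Agent.Work.MP_02f065_gt.RPn.Field (Ix 1 Q)) :=
  Pool.Agent.Work.MP_02f065_gt.Hyp.main hQ φ α β r hr hc
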