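import Pool.Agent.Work.MP_02f065_gt.Av.Part

/-!
Gromov's question on closed geodesics of RP^n, n = P + Q - 1, for the metrics which are obtained
from an SO(P) x SO(Q)-invariant metric h by multiplication of h with an arbitrary positive
function on an invariant distribution of rank at least two (for the whole tangent space these are
the metrics conformal to h, see `conf_part`): every such metric g has a closed geodesic of length l
with (l/pi)^n <= vol(g)/vol(round), the sharp bound (equality for the round metric).
-/

open Pool.Agent.Work.MP_02f065_gt.RPn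

theorem Pool.Agent.Results.MP_02f065_gt.PartialConformalMetrics.result (P Q : ℕ) (hP : 1 ≤ P)
    (hQ : 2 ≤ Q) (g : E (Ix P Q) → E (Ix P Q) → E (Ix P Q) → ℝ) (hg : IsMetric g)
    (hf : PC.PartConformal g) :
    ∃ (γ : ℝ → E (Ix P Q)) (l : ℝ), IsClosedGeodesic g γ l ∧
      (l / Real.pi) ^ (P + Q - 1) ≤
        vol g / vol (Pool.Agent.Work.MP_02f065_gt.RPn.round (ι := Ix P Q)) :=
  averaged P Q hP hQ g hg (part_inFamily (PC.toOld hf))
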